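import Pool.Agent.H76.NPC.Num

/-!
# Integer arithmetic is polynomial-time computable
-/

namespace Pool.Agent.NPC

theorem sz_int (n : ℤ) : sz n = sz (decide (n < 0)) + sz n.natAbs + 1 := by
  change sz ((decide (n < 0), n.natAbs) : Bool × ℕ) = _
  rw [sz_pair]

theorem sz_int_le (n : ℤ) : sz n ≤ 4 * n.natAbs.size + 5 := by
  rw [sz_int]
  have h1 := sz_bool_le (decide (n < 0))
  have h2 := sz_nat_le n.natAbs
  omega

theorem size_natAbs_le_sz (n : ℤ) : 2 * n.natAbs.size + 3 ≤ sz n := by
  rw [sz_int]
  have h1 := sz_pos (decide (n < 0))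
  have h2 := size_le_sz n.natAbs
  omega

/-- The integer with a given sign (`true` for negative) and absolute value. -/
def ofSM (s : Bool) (m : ℕ) : ℤ := bif s then -(m : ℤ) else (m : ℤ)

theorem ofSM_eq (n : ℤ) : ofSM (decide (n < 0)) n.natAbs = n := by
  by_cases h : n < 0
  · simp only [ofSM, h, decide_true, cond_true]; omega
  · simp only [ofSM, h, decide_false, cond_false]; omega

theorem natAbs_ofSM (s : Bool) (m : ℕ) : (ofSM s m).natAbs = m := by
  cases s <;> simp [ofSM]

theorem decide_ofSM (s : Bool) (m : ℕ) : decide (ofSM s m < 0) = (s && decide (0 < m)) := by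
  cases s
  · have : ¬ ((m : ℤ) < 0) := by omega
    simp [ofSM, this]
  · simp [ofSM]

namespace Poly

variable {α β γ δ σ : Type} [TEnc α] [TEnc β] [TEnc γ] [TEnc δ] [TEnc σ]

theorem int_mk {f : α → ℤ} (h1 : Poly (fun a => decide (f a < 0)))
    (h2 : Poly (fun a => (f a).natAbs)) : Poly f := pair h1 h2

theorem isNeg {f : α → ℤ} (h : Poly f) : Poly (fun a => decide (f a < 0)) := by
  have h' : Poly (fun a => ((decide (f a < 0), (f a).natAbs) : Bool × ℕ)) := h
  exact fst h'

theorem natAbs {f : α → ℤ} (h : Poly f) : Poly (fun a => (f a).natAbs) := by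
  have h' : Poly (fun a => ((decide (f a < 0), (f a).natAbs) : Bool × ℕ)) := h
  exact snd h'

theorem ofSM {s : α → Bool} {m : α → ℕ} (hs : Poly s) (hm : Poly m) :
    Poly (fun a => NPC.ofSM (s a) (m a)) := by
  refine int_mk ?_ ?_
  · exact (and hs (decide_lt (const 0) hm)).congr fun a => (decide_ofSM _ _).symm
  · exact hm.congr fun a => (natAbs_ofSM _ _).symm

theorem natCast {m : α → ℕ} (hm : Poly m) : Poly (fun a => (m a : ℤ)) :=
  (ofSM (const false) hm).congr fun a => by simp [NPC.ofSM]

theorem ineg {f : α → ℤ} (h : Poly f) : Poly (fun a => -(f a)) :=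
  (ofSM (not (isNeg h)) (natAbs h)).congr fun a => by
    by_cases hh : f a < 0
    · simp only [NPC.ofSM, hh, decide_true, Bool.not_true, cond_false]; omega
    · simp only [NPC.ofSM, hh, decide_false, Bool.not_false, cond_true]; omega

theorem iadd {f g : α → ℤ} (hf : Poly f) (hg : Poly g) : Poly (fun a => f a + g a) := by
  refine (cond (not (xor (isNeg hf) (isNeg hg)))
    (ofSM (isNeg hf) (add (natAbs hf) (natAbs hg)))
    (cond (decide_lt (natAbs hf) (natAbs hg)) (ofSM (isNeg hg) (sub (natAbs hg) (natAbs hf)))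
      (ofSM (isNeg hf) (sub (natAbs hf) (natAbs hg))))).congr fun a => ?_
  by_cases h1 : f a < 0 <;> by_cases h2 : g a < 0
  · simp only [h1, h2, decide_true, bne_self_eq_false, Bool.not_false, cond_true, NPC.ofSM]
    omega
  · simp only [h1, h2, decide_true, decide_false, NPC.ofSM]
    by_cases h3 : (f a).natAbs < (g a).natAbs <;> simp [h3] <;> omega
  · simp only [h1, h2, decide_true, decide_false, NPC.ofSM]
    by_cases h3 : (f a).natAbs < (g a).natAbs <;> simp [h3] <;> omega
  · simp only [h1, h2, decide_false, bne_self_eq_false, Bool.not_false, cond_true, NPC.ofSM,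
      cond_false]
    omega

theorem isub {f g : α → ℤ} (hf : Poly f) (hg : Poly g) : Poly (fun a => f a - g a) :=
  (iadd hf (ineg hg)).congr fun a => by rw [sub_eq_add_neg]

theorem imul {f g : α → ℤ} (hf : Poly f) (hg : Poly g) : Poly (fun a => f a * g a) := by
  refine (ofSM (xor (isNeg hf) (isNeg hg)) (mul (natAbs hf) (natAbs hg))).congr fun a => ?_
  conv_rhs => rw [← ofSM_eq (f a), ← ofSM_eq (g a)]
  cases decide (f a < 0) <;> cases decide (g a < 0) <;> simp [NPC.ofSM]

theorem ilt {f g : α → ℤ} (hf : Poly f) (hg : Poly g) : Poly (fun a => decide (f a < g a)) :=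
  (isNeg (isub hf hg)).congr fun a => by simp only [decide_eq_decide]; omega

theorem ile {f g : α → ℤ} (hf : Poly f) (hg : Poly g) : Poly (fun a => decide (f a ≤ g a)) :=
  (not (ilt hg hf)).congr fun a => by
    by_cases h : f a ≤ g a
    · simp [h]
    · simp [h]; omega

/-- Division of an integer by a natural number (rounding down). -/
theorem idiv {f : α → ℤ} {n : α → ℕ} (hf : Poly f) (hn : Poly n) :
    Poly (fun a => f a / (n a : ℤ)) := by
  refine (cond (decide_lt (const 0) hn) (cond (isNeg hf)
    (ofSM (const true) (succ (div (sub (natAbs hf) (const 1)) hn)))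
    (ofSM (const false) (div (natAbs hf) hn))) (const 0)).congr fun a => ?_
  by_cases h0 : 0 < n a
  · by_cases h1 : f a < 0
    · simp only [h0, h1, decide_true, cond_true, NPC.ofSM]
      obtain ⟨m, hm⟩ : ∃ m : ℕ, f a = Int.negSucc m := by
        cases hfa : f a with
        | ofNat k => rw [hfa] at h1; exact absurd h1 (by simp [Int.ofNat_eq_natCast])
        | negSucc k => exact ⟨k, rfl⟩
      obtain ⟨k, hk⟩ : ∃ k, n a = k + 1 := ⟨n a - 1, by omega⟩
      rw [hm, hk]
      have : (Int.negSucc m) / ((k + 1 : ℕ) : ℤ) = Int.negSucc (m / (k + 1)) := rfl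
      rw [this, Int.negSucc_eq (m / (k + 1))]
      have e : (Int.negSucc m).natAbs - 1 = m := by simp [Int.natAbs_negSucc]
      rw [e]
      push_cast
      ring
    · simp only [h0, h1, decide_true, decide_false, cond_true, cond_false, NPC.ofSM]
      obtain ⟨m, hm⟩ : ∃ m : ℕ, f a = m := ⟨(f a).natAbs, by omega⟩
      rw [hm]
      simp
  · have : n a = 0 := by omega
    simp [this]

theorem toNat {f : α → ℤ} (hf : Poly f) : Poly (fun a => (f a).toNat) :=
  (cond (isNeg hf) (const 0) (natAbs hf)).congr fun a => by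
    by_cases h : f a < 0
    · simp [h]; omega
    · simp [h]; omega

/-- Exact division of integers (also right when the divisor is negative, for exact quotients);
rounds towards something otherwise. -/
theorem idivExact {f g : α → ℤ} (hf : Poly f) (hg : Poly g) :
    Poly (fun a => NPC.ofSM (decide (f a < 0) ^^ decide (g a < 0)) ((f a).natAbs / (g a).natAbs)) :=
  ofSM (xor (isNeg hf) (isNeg hg)) (div (natAbs hf) (natAbs hg))

end Poly

theorem natAbs_foldr_add_lt (l : List ℤ) : (l.foldr (fun x s => x + s) 0).natAbs < 2 ^ sz l := by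
  induction l with
  | nil => simp
  | cons x l ih =>
    rw [List.foldr_cons, sz_list_cons]
    have h1 := size_natAbs_le_sz x
    have h2 := Nat.lt_size_self x.natAbs
    have h3 : x.natAbs < 2 ^ sz x := lt_of_lt_of_le h2 (Nat.pow_le_pow_right (by norm_num)
      (by omega))
    have h4 := Int.natAbs_add_le x (l.foldr (fun x s => x + s) 0)
    have h5 : 2 ^ sz x ≤ 2 ^ (sz x + sz l) := Nat.pow_le_pow_right (by norm_num) (by omega)
    have h6 : 2 ^ sz l ≤ 2 ^ (sz x + sz l) := Nat.pow_le_pow_right (by norm_num) (by omega)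
    rw [pow_succ]
    omega

namespace Poly

variable {α β γ δ σ : Type} [TEnc α] [TEnc β] [TEnc γ] [TEnc δ] [TEnc σ]

/-- Sums of lists of integers. -/
theorem isum {l : α → List ℤ} (hl : Poly l) : Poly (fun a => (l a).sum) := by
  obtain ⟨r, hr⟩ := hl.sz_le
  refine (foldr (s := fun _ => (0 : ℤ)) (F := fun _ x s => x + s) hl (const 0)
    (iadd (fst (snd id)) (snd (snd id))) (Polynomial.C 4 * r + Polynomial.C 5) ?_).congr
      fun a => ?_
  · intro a k hk
    have h1 := sz_int_le (((l a).drop k).foldr (fun x s => x + s) 0)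
    have h2 := Nat.size_le.2 (natAbs_foldr_add_lt ((l a).drop k))
    have h3 := sz_drop_le (l a) k
    have h4 := hr a
    simp only [Polynomial.eval_add, Polynomial.eval_mul, Polynomial.eval_C]
    omega
  · rfl

/-- Pointwise combination of two lists. -/
theorem zipWith {l : α → List β} {l' : α → List γ} {F : α → β → γ → δ} (hl : Poly l)
    (hl' : Poly l') (hF : Poly (fun p : α × β × γ => F p.1 p.2.1 p.2.2)) :
    Poly (fun a => List.zipWith (F a) (l a) (l' a)) :=
  (map (F := fun a (p : β × γ) => F a p.1 p.2) (zip hl hl')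
    (hF.comp (pair (fst id) (pair (fst (snd id)) (snd (snd id)))))).congr fun a => by
      rw [List.zip, List.map_zipWith]

/-- The dot product of two lists of integers. -/
theorem dot {l l' : α → List ℤ} (hl : Poly l) (hl' : Poly l') :
    Poly (fun a => (List.zipWith (fun x y => x * y) (l a) (l' a)).sum) :=
  isum (zipWith (F := fun _ x y => x * y) hl hl' (imul (fst (snd id)) (snd (snd id))))

end Poly

theorem size_pow_le (b n : ℕ) : (b ^ n).size ≤ n * b.size + 1 := by
  rw [Nat.size_le]
  calc b ^ n ≤ (2 ^ b.size) ^ n := Nat.pow_le_pow_left (Nat.lt_size_self b).le n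
    _ = 2 ^ (n * b.size) := by rw [← pow_mul, mul_comm]
    _ < 2 ^ (n * b.size + 1) := Nat.pow_lt_pow_right (by norm_num) (by omega)

namespace Poly

variable {α β γ δ σ : Type} [TEnc α] [TEnc β] [TEnc γ] [TEnc δ] [TEnc σ]

/-- Powers with a unary exponent. -/
theorem npow {b n : α → ℕ} (hb : Poly b) (hn : UPoly n) : Poly (fun a => b a ^ n a) := by
  obtain ⟨r, hr⟩ := hb.sz_le
  obtain ⟨q, hq⟩ := Poly.sz_le hn
  have key : ∀ (b k m : ℕ), (fun x => b * x)^[k] m = b ^ k * m := by
    intro b k
    induction k with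
    | zero => intro m; simp
    | succ k ih => intro m; rw [Function.iterate_succ_apply, ih, pow_succ]; ring
  refine (iterLen (l := fun a => List.replicate (n a) ()) (s := fun _ => 1)
    (F := fun a x => b a * x) hn (const 1) (mul (hb.comp (fst id)) (snd id))
    (Polynomial.C 4 * (q * r + Polynomial.C 1) + Polynomial.C 1) ?_).congr fun a => ?_
  · intro a k hk
    rw [key, mul_one]
    have h1 := sz_nat_le (b a ^ k)
    have h2 := size_pow_le (b a) k
    have h3 := size_le_sz (b a)
    have h4 := hr a
    have h5 := hq a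
    have h6 := length_lt_sz (List.replicate (n a) ())
    have h7 : k * (b a).size ≤ q.eval (sz a) * r.eval (sz a) := by
      apply Nat.mul_le_mul
      · omega
      · omega
    simp only [Polynomial.eval_add, Polynomial.eval_mul, Polynomial.eval_C]
    omega
  · simp only [List.length_replicate]
    rw [key, mul_one]

/-- Powers of integers with a unary exponent. -/
theorem ipow {b : α → ℤ} {n : α → ℕ} (hb : Poly b) (hn : UPoly n) :
    Poly (fun a => b a ^ n a) := by
  have h2 : Poly (fun a => decide (n a % 2 = 1)) :=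
    decide_eq (mod hn.toPoly (const 2)) (const 1)
  refine (ofSM (and (isNeg hb) h2) (npow (natAbs hb) hn)).congr fun a => ?_
  have h3 : b a ^ n a = (NPC.ofSM (decide (b a < 0)) (b a).natAbs) ^ n a := by rw [ofSM_eq]
  rw [h3]
  by_cases h : b a < 0
  · simp only [h, decide_true, Bool.true_and, NPC.ofSM, cond_true]
    by_cases h4 : n a % 2 = 1
    · have : Odd (n a) := Nat.odd_iff.2 h4
      simp only [h4, decide_true, cond_true, Nat.cast_pow, this.neg_pow]
    · have : Even (n a) := Nat.even_iff.2 (by omega)
      simp only [h4, decide_false, cond_false, Nat.cast_pow, this.neg_pow]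
  · simp only [h, decide_false, Bool.false_and, NPC.ofSM, cond_false, Nat.cast_pow]

end Poly

end Pool.Agent.NPC
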